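import Pool.Agent.Helper75.PM.Stm

set_option autoImplicit false

open Finset UniqueFactorizationMonoid

namespace Pool.Agent.Helper53.PM

open Pool.Agent.Helper75.PM

noncomputable section

lemma w_nonneg (n : ℕ) : 0 ≤ w n := by unfold w; positivity

lemma w_sqf {n : ℕ} (h : Squarefree n) : w n = (Nat.totient n : ℝ)⁻¹ := by
  have h1 : ((ArithmeticFunction.moebius n : ℤ) : ℝ) ^ 2 = 1 := by
    exact_mod_cast ArithmeticFunction.moebius_sq_eq_one_of_squarefree h
  rw [w, h1, one_div]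

lemma w_not_sqf {n : ℕ} (h : ¬ Squarefree n) : w n = 0 := by
  rw [w, ArithmeticFunction.moebius_eq_zero_of_not_squarefree h]
  simp

/-- `m ↦ 1 / m` -/
def inv : ℕ →* ℝ where
  toFun m := (m : ℝ)⁻¹
  map_one' := by simp
  map_mul' a b := by push_cast; rw [mul_inv]

lemma inv_apply (m : ℕ) : inv m = (m : ℝ)⁻¹ := rfl

/-! ### the lower bound -/

lemma rad_sum (n : ℕ) (S : Finset ℕ) (hS : ∀ m ∈ S, m ≠ 0 ∧ radical m = n) :
    ∑ m ∈ S, (m : ℝ)⁻¹ ≤ w n := by
  classical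
  rcases S.eq_empty_or_nonempty with rfl | ⟨m0, hm0⟩
  · simpa using w_nonneg n
  have hn : Squarefree n := by
    rw [← (hS m0 hm0).2]
    exact squarefree_radical
  have hn0 : n ≠ 0 := hn.ne_zero
  have hdvd : ∀ m ∈ S, n ∣ m := fun m hm => by
    rw [← (hS m hm).2]; exact radical_dvd_self
  obtain ⟨-, h2⟩ := EulerProduct.summable_and_hasSum_factoredNumbers_prod_filter_prime_geometric
    (f := inv) (fun {p} hp => by
      rw [inv_apply, Real.norm_eq_abs, abs_of_nonneg (by positivity)]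
      exact inv_lt_one_of_one_lt₀ (by exact_mod_cast hp.one_lt)) n.primeFactors
  have h3 : HasSum (Set.indicator (Nat.factoredNumbers n.primeFactors) inv)
      (∏ p ∈ n.primeFactors with p.Prime, (1 - inv p)⁻¹) := hasSum_subtype_iff_indicator.1 h2
  have h4 : ∀ m ∈ S, m / n ∈ Nat.factoredNumbers n.primeFactors := by
    intro m hm
    have hm0 := (hS m hm).1
    rw [Nat.mem_factoredNumbers']
    intro p hp hpm
    have h5 : p ∣ m := hpm.trans (Nat.div_dvd_of_dvd (hdvd m hm))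
    have h6 : p ∣ n := by
      rw [← (hS m hm).2]
      exact (dvd_radical_iff_of_irreducible hp.prime.irreducible hm0).2 h5
    exact Nat.mem_primeFactors.2 ⟨hp, h6, hn0⟩
  have h5 : ∑ i ∈ S.image (fun m => m / n),
      Set.indicator (Nat.factoredNumbers n.primeFactors) inv i ≤
      ∏ p ∈ n.primeFactors with p.Prime, (1 - inv p)⁻¹ := by
    apply sum_le_hasSum _ _ h3
    intro i _
    apply Set.indicator_nonneg
    intro x _
    rw [inv_apply]; positivity
  rw [Finset.sum_image (by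
    intro a ha b hb hab
    have h6 : a / n = b / n := hab
    rw [← Nat.div_mul_cancel (hdvd a ha), ← Nat.div_mul_cancel (hdvd b hb), h6])] at h5
  have h6 : ∑ m ∈ S, (m : ℝ)⁻¹ = (n : ℝ)⁻¹ * ∑ m ∈ S,
      Set.indicator (Nat.factoredNumbers n.primeFactors) inv (m / n) := by
    rw [Finset.mul_sum]
    refine Finset.sum_congr rfl fun m hm => ?_
    rw [Set.indicator_of_mem (h4 m hm), inv_apply]
    have h7 : (m : ℝ) = (n : ℝ) * ((m / n : ℕ) : ℝ) := by
      rw [← Nat.cast_mul, Nat.mul_div_cancel' (hdvd m hm)]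
    rw [h7, mul_inv]
  have h8 : (Nat.totient n : ℝ) = n * ∏ p ∈ n.primeFactors, (1 - (p : ℝ)⁻¹) := by
    have := Nat.totient_eq_mul_prod_factors n
    have h9 := congrArg (Rat.cast : ℚ → ℝ) this
    push_cast at h9
    exact h9
  rw [h6, w_sqf hn, h8, mul_inv, ← Finset.prod_inv_distrib]
  refine mul_le_mul_of_nonneg_left ?_ (by positivity)
  refine h5.trans (le_of_eq ?_)
  rw [Finset.filter_true_of_mem fun p hp => Nat.prime_of_mem_primeFactors hp]
  rfl

lemma log_le_SS (N : ℕ) (hN : 1 ≤ N) : Real.log N ≤ SS N := by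
  classical
  have h1 : Real.log N ≤ ∑ m ∈ Icc 1 N, (m : ℝ)⁻¹ := by
    have h2 := log_add_one_le_harmonic N
    rw [harmonic_eq_sum_Icc] at h2
    push_cast at h2
    refine le_trans (Real.log_le_log (by exact_mod_cast hN) (by linarith)) h2
  refine h1.trans ?_
  have h3 : ∀ m ∈ Icc 1 N, radical m ∈ Icc 1 N := by
    intro m hm
    rw [mem_Icc] at hm ⊢
    refine ⟨Nat.pos_of_ne_zero radical_ne_zero, ?_⟩
    exact (Nat.le_of_dvd (by omega) radical_dvd_self).trans hm.2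
  rw [← Finset.sum_fiberwise_of_maps_to h3, SS]
  refine Finset.sum_le_sum fun n _ => ?_
  apply rad_sum
  intro m hm
  rw [mem_filter, mem_Icc] at hm
  exact ⟨by omega, hm.2⟩

/-! ### sums over the primes -/

/-- primes up to `k` -/
def PP (k : ℕ) : Finset ℕ := (Icc 1 k).filter Nat.Prime

lemma mem_PP {k p : ℕ} : p ∈ PP k ↔ p.Prime ∧ p ≤ k := by
  rw [PP, mem_filter, mem_Icc]
  exact ⟨fun h => ⟨h.2, h.1.2⟩, fun h => ⟨⟨h.1.one_lt.le, h.2⟩, h.1⟩⟩

lemma small_sum : ∃ Z : ℝ, 0 ≤ Z ∧ ∀ k : ℕ,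
    ∑ p ∈ PP k, Real.log p / ((p : ℝ) - 1) ^ 2 ≤ Z := by
  have hs : Summable (fun n : ℕ => 8 * (n : ℝ) ^ (-(3 / 2) : ℝ)) :=
    (Real.summable_nat_rpow.2 (by norm_num)).mul_left 8
  refine ⟨∑' n : ℕ, 8 * (n : ℝ) ^ (-(3 / 2) : ℝ), tsum_nonneg fun n => by positivity, ?_⟩
  intro k
  refine le_trans (Finset.sum_le_sum fun p hp => ?_)
    (hs.sum_le_tsum (PP k) fun n _ => by positivity)
  have hp2 : (2 : ℝ) ≤ p := by exact_mod_cast (mem_PP.1 hp).1.two_le
  have hp0 : (0 : ℝ) < p := by linarith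
  have h1 : Real.log p ≤ 2 * (p : ℝ) ^ (1 / 2 : ℝ) := by
    have := Real.log_le_rpow_div hp0.le (show (0 : ℝ) < 1 / 2 by norm_num)
    linarith
  have h2 : (p : ℝ) ^ 2 / 4 ≤ ((p : ℝ) - 1) ^ 2 := by nlinarith
  have h3 : (p : ℝ) ^ (1 / 2 : ℝ) = (p : ℝ) ^ (-(3 / 2) : ℝ) * (p : ℝ) ^ 2 := by
    rw [← Real.rpow_natCast, ← Real.rpow_add hp0]
    norm_num
  rw [div_le_iff₀ (by nlinarith)]
  calc Real.log p ≤ 2 * (p : ℝ) ^ (1 / 2 : ℝ) := h1
    _ = 8 * (p : ℝ) ^ (-(3 / 2) : ℝ) * ((p : ℝ) ^ 2 / 4) := by rw [h3]; ring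
    _ ≤ 8 * (p : ℝ) ^ (-(3 / 2) : ℝ) * ((p : ℝ) - 1) ^ 2 :=
        mul_le_mul_of_nonneg_left h2 (by positivity)

/-- exchange of a sum over the prime divisors -/
lemma exch (N : ℕ) (u g : ℕ → ℝ) : ∑ d ∈ Icc 1 N, u d * ∑ p ∈ d.primeFactors, g p =
    ∑ p ∈ PP N, g p * ∑ d ∈ (Icc 1 N).filter (p ∣ ·), u d := by
  classical
  have h1 : ∀ d ∈ Icc 1 N, u d * ∑ p ∈ d.primeFactors, g p =
      ∑ p ∈ PP N, if p ∣ d then g p * u d else 0 := by
    intro d hd
    rw [mem_Icc] at hd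
    rw [← Finset.sum_filter, Finset.mul_sum]
    have h2 : (PP N).filter (· ∣ d) = d.primeFactors := by
      ext p
      rw [mem_filter, mem_PP, Nat.mem_primeFactors]
      constructor
      · rintro ⟨⟨h1, h2⟩, h3⟩
        exact ⟨h1, h3, by omega⟩
      · rintro ⟨h1, h2, h3⟩
        exact ⟨⟨h1, (Nat.le_of_dvd (by omega) h2).trans hd.2⟩, h2⟩
    rw [h2]
    exact Finset.sum_congr rfl fun p _ => mul_comm _ _
  rw [Finset.sum_congr rfl h1, Finset.sum_comm]
  refine Finset.sum_congr rfl fun p _ => ?_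
  rw [Finset.mul_sum, Finset.sum_filter]

lemma multiples (N p : ℕ) (hp : 0 < p) (u : ℕ → ℝ) :
    ∑ d ∈ (Icc 1 N).filter (p ∣ ·), u d = ∑ e ∈ Icc 1 (N / p), u (p * e) := by
  classical
  symm
  refine Finset.sum_nbij (fun e => p * e) ?_ ?_ ?_ (fun _ _ => rfl)
  · intro e he
    rw [mem_Icc] at he
    rw [mem_filter, mem_Icc]
    have h1 : p * e ≤ N := by
      have := (Nat.le_div_iff_mul_le hp).1 he.2
      rwa [mul_comm] at this
    exact ⟨⟨Nat.mul_pos hp (by omega), h1⟩, dvd_mul_right _ _⟩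
  · intro a _ b _ hab
    exact Nat.eq_of_mul_eq_mul_left hp hab
  · rintro d hd
    rw [mem_coe, mem_filter, mem_Icc] at hd
    obtain ⟨⟨h1, h2⟩, e, rfl⟩ := hd
    refine ⟨e, ?_, rfl⟩
    rw [mem_coe, mem_Icc]
    refine ⟨?_, (Nat.le_div_iff_mul_le hp).2 (by rwa [mul_comm])⟩
    rcases Nat.eq_zero_or_pos e with h | h
    · subst h; simp at h1
    · exact h

/-- Mertens' upper bound -/
lemma mertens (k : ℕ) (hk : 1 ≤ k) :
    ∑ p ∈ PP k, Real.log p / (p : ℝ) ≤ Real.log k + Real.log 4 := by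
  classical
  have hk0 : (0 : ℝ) < k := by exact_mod_cast hk
  have h1 : ∑ d ∈ Icc 1 k, (1 : ℝ) * ∑ p ∈ d.primeFactors, Real.log p ≤ k * Real.log k := by
    have h2 : ∀ d ∈ Icc 1 k, (1 : ℝ) * ∑ p ∈ d.primeFactors, Real.log p ≤ Real.log k := by
      intro d hd
      rw [mem_Icc] at hd
      rw [one_mul, ← Real.log_prod (fun p hp => by
        have := (Nat.prime_of_mem_primeFactors hp).pos
        positivity)]
      have h3 : ∏ p ∈ d.primeFactors, p ≤ k :=
        (Nat.le_of_dvd (by omega) (Nat.prod_primeFactors_dvd d)).trans hd.2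
      have h4 : 0 < ∏ p ∈ d.primeFactors, p :=
        Finset.prod_pos fun p hp => (Nat.prime_of_mem_primeFactors hp).pos
      rw [← Nat.cast_prod]
      exact Real.log_le_log (by exact_mod_cast h4) (by exact_mod_cast h3)
    refine (Finset.sum_le_sum h2).trans ?_
    rw [Finset.sum_const, Nat.card_Icc, nsmul_eq_mul]
    simp
  rw [exch k (fun _ => 1) (fun p => Real.log p)] at h1
  have h5 : ∀ p ∈ PP k, k * (Real.log p / (p : ℝ)) - Real.log p ≤
      Real.log p * ∑ d ∈ (Icc 1 k).filter (p ∣ ·), (1 : ℝ) := by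
    intro p hp
    have hp1 := (mem_PP.1 hp).1
    have hp0 : (0 : ℝ) < p := by exact_mod_cast hp1.pos
    rw [multiples k p hp1.pos (fun _ => 1), Finset.sum_const, Nat.card_Icc, nsmul_eq_mul, mul_one,
      Nat.add_sub_cancel]
    have h6 : (k : ℝ) / p - 1 ≤ ((k / p : ℕ) : ℝ) := by
      have := (Nat.lt_floor_add_one ((k : ℝ) / p)).le
      rw [Nat.floor_div_eq_div] at this
      linarith
    have h7 : 0 ≤ Real.log p := Real.log_nonneg (by exact_mod_cast hp1.one_lt.le)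
    calc k * (Real.log p / (p : ℝ)) - Real.log p = Real.log p * ((k : ℝ) / p - 1) := by
          field_simp
      _ ≤ Real.log p * ((k / p : ℕ) : ℝ) := mul_le_mul_of_nonneg_left h6 h7
  have h8 := (Finset.sum_le_sum h5).trans h1
  rw [Finset.sum_sub_distrib, ← Finset.mul_sum] at h8
  have h9 : ∑ p ∈ PP k, Real.log p ≤ Real.log 4 * k := by
    have h10 := Chebyshev.theta_le_log4_mul_x hk0.le
    rw [Chebyshev.theta_eq_sum_Icc, Nat.floor_natCast] at h10
    refine le_trans (Finset.sum_le_sum_of_subset_of_nonneg ?_ ?_) h10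
    · intro p hp
      rw [mem_PP] at hp
      rw [mem_filter, mem_Icc]
      exact ⟨⟨Nat.zero_le _, hp.2⟩, hp.1⟩
    · intro p hp _
      rw [mem_filter] at hp
      exact Real.log_nonneg (by exact_mod_cast hp.2.one_lt.le)
  have h11 : (k : ℝ) * ∑ p ∈ PP k, Real.log p / (p : ℝ) ≤ k * (Real.log k + Real.log 4) := by
    linarith
  exact le_of_mul_le_mul_left h11 hk0

lemma mertens' : ∃ C : ℝ, 0 ≤ C ∧ (∀ k : ℕ, ∑ p ∈ PP k, Real.log p / ((p : ℝ) - 1) ^ 2 ≤ C) ∧
    ∀ k : ℕ, 1 ≤ k → ∑ p ∈ PP k, Real.log p / ((p : ℝ) - 1) ≤ Real.log k + C := by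
  obtain ⟨Z, hZ0, hZ⟩ := small_sum
  have h4 : 0 ≤ Real.log 4 := Real.log_nonneg (by norm_num)
  refine ⟨Real.log 4 + Z, by linarith, fun k => (hZ k).trans (by linarith), fun k hk => ?_⟩
  have h1 : ∀ p ∈ PP k, Real.log p / ((p : ℝ) - 1) ≤ Real.log p / (p : ℝ) +
      Real.log p / ((p : ℝ) - 1) ^ 2 := by
    intro p hp
    have hp2 : (2 : ℝ) ≤ p := by exact_mod_cast (mem_PP.1 hp).1.two_le
    have h7 : 0 ≤ Real.log p := Real.log_nonneg (by linarith)
    have h8 : Real.log p / (p : ℝ) + Real.log p / ((p : ℝ) - 1) ^ 2 -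
        Real.log p / ((p : ℝ) - 1) = Real.log p * (1 / (p * ((p : ℝ) - 1) ^ 2)) := by
      have : (p : ℝ) - 1 ≠ 0 := by linarith
      field_simp
      ring
    have h9 : 0 ≤ Real.log p * (1 / (p * ((p : ℝ) - 1) ^ 2)) := by positivity
    linarith
  refine (Finset.sum_le_sum h1).trans ?_
  rw [Finset.sum_add_distrib]
  linarith [mertens k hk, hZ k]

/-! ### the upper bounds -/

lemma w_mul {p e : ℕ} (hp : p.Prime) : w (p * e) ≤ w e / ((p : ℝ) - 1) := by
  have hp1 : (0 : ℝ) < (p : ℝ) - 1 := by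
    have : (1 : ℝ) < p := by exact_mod_cast hp.one_lt
    linarith
  by_cases h : Squarefree (p * e)
  · have hco : Nat.Coprime p e := (Nat.squarefree_mul_iff.1 h).1
    have he : Squarefree e := (Nat.squarefree_mul_iff.1 h).2.2
    rw [w_sqf h, w_sqf he, Nat.totient_mul hco, Nat.totient_prime hp]
    push_cast [hp.one_lt.le]
    rw [mul_inv, div_eq_mul_inv, mul_comm]
  · rw [w_not_sqf h]
    exact div_nonneg (w_nonneg _) hp1.le

lemma main_sum (N : ℕ) (g : ℕ → ℝ) (hg : ∀ p, p.Prime → 0 ≤ g p) :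
    ∑ d ∈ Icc 1 N, w d * ∑ p ∈ d.primeFactors, g p ≤
      ∑ p ∈ PP N, g p / ((p : ℝ) - 1) * ∑ e ∈ Icc 1 (N / p), w e := by
  rw [exch N w g]
  refine Finset.sum_le_sum fun p hp => ?_
  have hp1 := (mem_PP.1 hp).1
  rw [multiples N p hp1.pos, div_mul_eq_mul_div, mul_div_assoc, Finset.sum_div]
  exact mul_le_mul_of_nonneg_left (Finset.sum_le_sum fun e _ => w_mul hp1) (hg p hp1)

theorem sums : S_sums := by
  classical
  refine ⟨log_le_SS, ?_⟩
  obtain ⟨C, hC0, hC1, hC2⟩ := mertens'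
  refine ⟨C, hC0, ?_, ?_⟩
  · intro N hN
    have h1 := main_sum N (fun p => Real.log p / ((p : ℝ) - 1)) (fun p hp => by
      have h1 : (1 : ℝ) < p := by exact_mod_cast hp.one_lt
      exact div_nonneg (Real.log_nonneg h1.le) (by linarith))
    refine h1.trans ?_
    have hSS : 0 ≤ SS N := Finset.sum_nonneg fun n _ => w_nonneg n
    calc ∑ p ∈ PP N, Real.log p / ((p : ℝ) - 1) / ((p : ℝ) - 1) * ∑ e ∈ Icc 1 (N / p), w e
        ≤ ∑ p ∈ PP N, Real.log p / ((p : ℝ) - 1) ^ 2 * SS N := by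
          refine Finset.sum_le_sum fun p hp => ?_
          have h2 : (1 : ℝ) < p := by exact_mod_cast (mem_PP.1 hp).1.one_lt
          rw [div_div, ← pow_two]
          apply mul_le_mul_of_nonneg_left
          · apply Finset.sum_le_sum_of_subset_of_nonneg
            · exact Finset.Icc_subset_Icc_right (Nat.div_le_self _ _)
            · intro n _ _
              exact w_nonneg n
          · exact div_nonneg (Real.log_nonneg h2.le) (by positivity)
      _ = (∑ p ∈ PP N, Real.log p / ((p : ℝ) - 1) ^ 2) * SS N := by rw [Finset.sum_mul]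
      _ ≤ C * SS N := mul_le_mul_of_nonneg_right (hC1 N) hSS
  · intro N hN
    have h1 : ∑ m ∈ Icc 1 N, w m * Real.log m =
        ∑ m ∈ Icc 1 N, w m * ∑ p ∈ m.primeFactors, Real.log p := by
      refine Finset.sum_congr rfl fun m hm => ?_
      by_cases h : Squarefree m
      · rw [← Real.log_prod (fun p hp => by
          have := (Nat.prime_of_mem_primeFactors hp).pos
          positivity), ← Nat.cast_prod, Nat.prod_primeFactors_of_squarefree h]
      · rw [w_not_sqf h, zero_mul, zero_mul]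
    have h2 := main_sum N (fun p => Real.log p) (fun p hp =>
      Real.log_nonneg (by exact_mod_cast hp.one_lt.le))
    have h3 : ∑ p ∈ PP N, Real.log p / ((p : ℝ) - 1) * ∑ e ∈ Icc 1 (N / p), w e =
        ∑ e ∈ Icc 1 N, w e * ∑ p ∈ PP (N / e), Real.log p / ((p : ℝ) - 1) := by
      simp_rw [Finset.mul_sum]
      rw [Finset.sum_comm' (t' := Icc 1 N) (s' := fun e => PP (N / e))]
      · exact Finset.sum_congr rfl fun e _ => Finset.sum_congr rfl fun p _ => mul_comm _ _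
      · intro p e
        rw [mem_PP, mem_PP, mem_Icc, mem_Icc]
        constructor
        · rintro ⟨⟨h1, h2⟩, h3, h4⟩
          have h5 := (Nat.le_div_iff_mul_le h1.pos).1 h4
          exact ⟨⟨h1, (Nat.le_div_iff_mul_le (by omega)).2 (by rwa [mul_comm])⟩, h3,
            h4.trans (Nat.div_le_self _ _)⟩
        · rintro ⟨⟨h1, h2⟩, h3, h4⟩
          have h5 := (Nat.le_div_iff_mul_le (by omega)).1 h2
          exact ⟨⟨h1, h2.trans (Nat.div_le_self _ _)⟩, h3,
            (Nat.le_div_iff_mul_le h1.pos).2 (by rwa [mul_comm])⟩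
    have h4 : ∑ e ∈ Icc 1 N, w e * ∑ p ∈ PP (N / e), Real.log p / ((p : ℝ) - 1) ≤
        ∑ e ∈ Icc 1 N, w e * (Real.log N - Real.log e + C) := by
      refine Finset.sum_le_sum fun e he => mul_le_mul_of_nonneg_left ?_ (w_nonneg e)
      rw [mem_Icc] at he
      have he0 : (0 : ℝ) < e := by exact_mod_cast he.1
      have hN0 : (0 : ℝ) < N := by exact_mod_cast hN
      have h5 : 1 ≤ N / e := (Nat.one_le_div_iff (by omega)).2 he.2
      refine (hC2 (N / e) h5).trans ?_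
      rw [← Real.log_div hN0.ne' he0.ne']
      have h6 : ((N / e : ℕ) : ℝ) ≤ (N : ℝ) / e := Nat.cast_div_le
      have h7 : (0 : ℝ) < ((N / e : ℕ) : ℝ) := by exact_mod_cast h5
      linarith [Real.log_le_log h7 h6]
    have h5 : ∑ e ∈ Icc 1 N, w e * (Real.log N - Real.log e + C) =
        (Real.log N + C) * SS N - ∑ e ∈ Icc 1 N, w e * Real.log e := by
      rw [SS, Finset.mul_sum, ← Finset.sum_sub_distrib]
      exact Finset.sum_congr rfl fun e _ => by ring
    rw [h3] at h2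
    rw [← h1] at h2
    linarith

end

end Pool.Agent.Helper53.PM
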